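import Pool.Agent.H14.AVS.S2

/-!
# AVS, module HSM: smooth points lift, in infinitely many ways
-/

set_option autoImplicit false

namespace Pool.AVS

open Polynomial Matrix Pool.AVR

namespace HSM

open IsLocalRing

section Hens

variable {R : Type} [CommRing R] [IsDomain R] [HenselianLocalRing R]

theorem unit_of_sub {x y : R} (hy : IsUnit y) (h : x - y ∈ maximalIdeal R) : IsUnit x := by
  by_contra hx
  have hx' : x ∈ maximalIdeal R := by rwa [mem_maximalIdeal, mem_nonunits_iff]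
  have : y ∈ maximalIdeal R := by
    have := Ideal.sub_mem _ hx' h
    simpa using this
  rw [mem_maximalIdeal, mem_nonunits_iff] at this
  exact this hy

theorem hens4 (f0 f1 f2 f3 f4 : R) (h0 : f0 ∈ maximalIdeal R) (h1 : IsUnit f1) :
    ∃ x ∈ maximalIdeal R, f0 + f1 * x + f2 * x ^ 2 + f3 * x ^ 3 + f4 * x ^ 4 = 0 := by
  have hmon : (X ^ 4 + C f1 * X ^ 3 + C (f0 * f2) * X ^ 2 + C (f0 ^ 2 * f3) * X +
      C (f0 ^ 3 * f4) : R[X]).Monic := by monicity!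
  obtain ⟨y, hy, hy'⟩ := HenselianLocalRing.is_henselian _ hmon (-f1)
    (by
      have : (X ^ 4 + C f1 * X ^ 3 + C (f0 * f2) * X ^ 2 + C (f0 ^ 2 * f3) * X +
          C (f0 ^ 3 * f4) : R[X]).eval (-f1) =
          (f2 * f1 ^ 2 - f0 * f3 * f1 + f0 ^ 2 * f4) * f0 := by
        simp only [eval_add, eval_mul, eval_pow, eval_X, eval_C]
        ring
      rw [this]
      exact Ideal.mul_mem_left _ _ h0)
    (by
      have : (derivative (X ^ 4 + C f1 * X ^ 3 + C (f0 * f2) * X ^ 2 + C (f0 ^ 2 * f3) * X +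
          C (f0 ^ 3 * f4) : R[X])).eval (-f1) - (-f1 ^ 3) =
          (-2 * f2 * f1 + f0 * f3) * f0 := by
        simp only [derivative_add, derivative_mul, derivative_X_pow, derivative_C, derivative_X,
          eval_add, eval_mul, eval_pow, eval_X, eval_C, eval_natCast, eval_zero, eval_one,
          derivative_pow]
        push_cast
        ring
      refine unit_of_sub (y := -f1 ^ 3) (h1.pow 3).neg ?_
      rw [this]
      exact Ideal.mul_mem_left _ _ h0)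
  have hyu : IsUnit y := unit_of_sub h1.neg hy'
  obtain ⟨u, rfl⟩ := hyu
  have hF : (u : R) ^ 4 + f1 * (u : R) ^ 3 + f0 * f2 * (u : R) ^ 2 + f0 ^ 2 * f3 * (u : R) +
      f0 ^ 3 * f4 = 0 := by
    have := hy
    simp only [IsRoot.def, eval_add, eval_mul, eval_pow, eval_X, eval_C] at this
    exact this
  refine ⟨f0 * (↑u⁻¹ : R), Ideal.mul_mem_right _ _ h0, ?_⟩
  have hxy : f0 * (↑u⁻¹ : R) * (u : R) = f0 := by
    rw [mul_assoc, Units.inv_mul, mul_one]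
  set x := f0 * (↑u⁻¹ : R) with hx
  have h4 : (f0 + f1 * x + f2 * x ^ 2 + f3 * x ^ 3 + f4 * x ^ 4) * (u : R) ^ 4 = 0 := by
    calc (f0 + f1 * x + f2 * x ^ 2 + f3 * x ^ 3 + f4 * x ^ 4) * (u : R) ^ 4
        = f0 * (u : R) ^ 4 + f1 * (x * u) * (u : R) ^ 3 + f2 * (x * u) ^ 2 * (u : R) ^ 2 +
          f3 * (x * u) ^ 3 * (u : R) + f4 * (x * u) ^ 4 := by ring
      _ = f0 * ((u : R) ^ 4 + f1 * (u : R) ^ 3 + f0 * f2 * (u : R) ^ 2 + f0 ^ 2 * f3 * (u : R) +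
          f0 ^ 3 * f4) := by rw [hxy]; ring
      _ = 0 := by rw [hF, mul_zero]
  exact (IsUnit.mul_left_eq_zero (u.isUnit.pow 4)).1 h4

theorem sqrt (h2 : IsUnit (2 : R)) (v W : R) (hW : IsUnit W) (h : W ^ 2 - v ∈ maximalIdeal R) :
    ∃ W' : R, W' ^ 2 = v ∧ W' - W ∈ maximalIdeal R := by
  have hmon : (X ^ 2 - C v : R[X]).Monic := by monicity!
  obtain ⟨y, hy, hy'⟩ := HenselianLocalRing.is_henselian _ hmon W
    (by simpa using h)
    (by
      have : (derivative (X ^ 2 - C v : R[X])).eval W = 2 * W := by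
        simp [one_add_one_eq_two]
      rw [this]
      exact h2.mul hW)
  refine ⟨y, ?_, hy'⟩
  have := hy
  simp only [IsRoot.def, eval_sub, eval_pow, eval_X, eval_C] at this
  exact sub_eq_zero.1 this

theorem kl (h2 : IsUnit (2 : R)) (hinf : (maximalIdeal R : Set R).Infinite)
    (q0 q1 q2 q3 q4 W : R) (hW : W ^ 2 - q0 ∈ maximalIdeal R) (hs : IsUnit W ∨ IsUnit q1)
    (Z : Set R) (hZ : Z.Finite) :
    ∃ x ∈ maximalIdeal R, x ∉ Z ∧ ∃ W' : R, W' ≠ 0 ∧ W' - W ∈ maximalIdeal R ∧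
      W' ^ 2 = q0 + q1 * x + q2 * x ^ 2 + q3 * x ^ 3 + q4 * x ^ 4 := by
  by_cases hWu : IsUnit W
  · obtain ⟨x, hx, hxZ⟩ := (hinf.sdiff hZ).nonempty
    obtain ⟨W', h1, h3⟩ := sqrt h2 (q0 + q1 * x + q2 * x ^ 2 + q3 * x ^ 3 + q4 * x ^ 4) W hWu (by
      have : W ^ 2 - (q0 + q1 * x + q2 * x ^ 2 + q3 * x ^ 3 + q4 * x ^ 4) =
          (W ^ 2 - q0) - (q1 + q2 * x + q3 * x ^ 2 + q4 * x ^ 3) * x := by ring
      rw [this]
      exact Ideal.sub_mem _ hW (Ideal.mul_mem_left _ _ hx))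
    exact ⟨x, hx, hxZ, W', (unit_of_sub hWu h3).ne_zero, h3, h1⟩
  · have hq1 : IsUnit q1 := by tauto
    have hWm : W ∈ maximalIdeal R := by rwa [mem_maximalIdeal, mem_nonunits_iff]
    have hq0 : q0 ∈ maximalIdeal R := by
      have h3 : q0 = W * W - (W ^ 2 - q0) := by ring
      rw [h3]
      exact Ideal.sub_mem _ (Ideal.mul_mem_left _ _ hWm) hW
    have hfin : ({0} ∪ ⋃ x ∈ Z, {V : R | V ^ 2 = q0 + q1 * x + q2 * x ^ 2 + q3 * x ^ 3 +
        q4 * x ^ 4}).Finite := by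
      refine (Set.finite_singleton 0).union (hZ.biUnion fun x _ => ?_)
      by_cases hne : ∃ V0 : R, V0 ^ 2 = q0 + q1 * x + q2 * x ^ 2 + q3 * x ^ 3 + q4 * x ^ 4
      · obtain ⟨V0, hV0⟩ := hne
        refine (Set.toFinite {V0, -V0}).subset fun V hV => ?_
        have hV' : V ^ 2 = V0 ^ 2 := by rw [hV0]; exact hV
        rcases sq_eq_sq_iff_eq_or_eq_neg.1 hV' with h | h
        · simp [h]
        · simp [h]
      · push Not at hne
        exact (Set.toFinite ∅).subset fun V hV => (hne V hV).elim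
    obtain ⟨V, hV, hVZ⟩ := (hinf.sdiff hfin).nonempty
    simp only [Set.mem_union, Set.mem_singleton_iff, Set.mem_iUnion, Set.mem_ofPred_eq,
      not_or, not_exists] at hVZ
    obtain ⟨x, hx, hx0⟩ := hens4 (q0 - V ^ 2) q1 q2 q3 q4
      (Ideal.sub_mem _ hq0 (by rw [pow_two]; exact Ideal.mul_mem_left _ _ hV)) hq1
    have he : V ^ 2 = q0 + q1 * x + q2 * x ^ 2 + q3 * x ^ 3 + q4 * x ^ 4 := by
      linear_combination -hx0
    exact ⟨x, hx, fun hxZ => hVZ.2 x hxZ he, V, hVZ.1, Ideal.sub_mem _ hV hWm, he⟩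

theorem coreN (h : R) (hh : 2 * h = 1) (hinf : (maximalIdeal R : Set R).Infinite)
    (b00 b01 b02 b11 b12 b22 σ τ W : R) (hE : 2 * τ + σ ^ 2 ∈ maximalIdeal R)
    (hw : W ^ 2 + (b00 + 2 * b01 * σ + 2 * b02 * τ + b11 * σ ^ 2 + 2 * b12 * σ * τ +
      b22 * τ ^ 2) ∈ maximalIdeal R)
    (hsm : ¬ (W ∈ maximalIdeal R ∧ ∃ μ : R, b00 + b01 * σ + b02 * τ - μ * τ ∈ maximalIdeal R ∧
      b01 + b11 * σ + b12 * τ - μ * σ ∈ maximalIdeal R ∧
      b02 + b12 * σ + b22 * τ - μ ∈ maximalIdeal R)) (Z : Set R) (hZ : Z.Finite) :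
    ∃ s W' : R, s ∉ Z ∧ W' ≠ 0 ∧ W' - W ∈ maximalIdeal R ∧ s - σ ∈ maximalIdeal R ∧
      W' ^ 2 = -(b00 + 2 * b01 * s + (b11 - b02) * s ^ 2 - b12 * s ^ 3 +
        h ^ 2 * b22 * s ^ 4) := by
  have h2 : IsUnit (2 : R) := IsUnit.of_mul_eq_one h hh
  have hq0 : W ^ 2 - (-(b00 + 2 * b01 * σ + (b11 - b02) * σ ^ 2 - b12 * σ ^ 3 +
      h ^ 2 * b22 * σ ^ 4)) ∈ maximalIdeal R := by
    have : W ^ 2 - (-(b00 + 2 * b01 * σ + (b11 - b02) * σ ^ 2 - b12 * σ ^ 3 +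
        h ^ 2 * b22 * σ ^ 4)) = (W ^ 2 + (b00 + 2 * b01 * σ + 2 * b02 * τ + b11 * σ ^ 2 +
        2 * b12 * σ * τ + b22 * τ ^ 2)) - (b02 + b12 * σ + b22 * (h * τ - h ^ 2 * σ ^ 2)) *
          (2 * τ + σ ^ 2) := by
      linear_combination (b22 * τ ^ 2 - b22 * h * τ * σ ^ 2) * hh
    rw [this]
    exact Ideal.sub_mem _ hw (Ideal.mul_mem_left _ _ hE)
  have hu : IsUnit W ∨ IsUnit (-(2 * b01 + 2 * (b11 - b02) * σ - 3 * b12 * σ ^ 2 +
      4 * h ^ 2 * b22 * σ ^ 3)) := by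
    by_contra hcon
    push Not at hcon
    obtain ⟨hc1, hc2⟩ := hcon
    have hWm : W ∈ maximalIdeal R := by rwa [mem_maximalIdeal, mem_nonunits_iff]
    rw [← mem_nonunits_iff, ← mem_maximalIdeal] at hc2
    apply hsm
    -- b1 - σ b2 ∈ m
    have e1 : (b01 + b11 * σ + b12 * τ) - σ * (b02 + b12 * σ + b22 * τ) ∈ maximalIdeal R := by
      have : (b01 + b11 * σ + b12 * τ) - σ * (b02 + b12 * σ + b22 * τ) =
          -h * (-(2 * b01 + 2 * (b11 - b02) * σ - 3 * b12 * σ ^ 2 +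
            4 * h ^ 2 * b22 * σ ^ 3)) + (h * b12 - h * b22 * σ) * (2 * τ + σ ^ 2) := by
        linear_combination (-(b01 + b11 * σ + b12 * τ) + σ * (b02 + b12 * σ + b22 * τ) -
          b22 * σ ^ 3 * h * (1 + 2 * h)) * hh
      rw [this]
      exact Ideal.add_mem _ (Ideal.mul_mem_left _ _ hc2) (Ideal.mul_mem_left _ _ hE)
    refine ⟨hWm, b02 + b12 * σ + b22 * τ, ?_, ?_, ?_⟩
    · have : b00 + b01 * σ + b02 * τ - (b02 + b12 * σ + b22 * τ) * τ =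
          (W ^ 2 + (b00 + 2 * b01 * σ + 2 * b02 * τ + b11 * σ ^ 2 + 2 * b12 * σ * τ +
            b22 * τ ^ 2)) - W * W - σ * ((b01 + b11 * σ + b12 * τ) -
            σ * (b02 + b12 * σ + b22 * τ)) -
          (b02 + b12 * σ + b22 * τ) * (2 * τ + σ ^ 2) := by ring
      rw [this]
      exact Ideal.sub_mem _ (Ideal.sub_mem _ (Ideal.sub_mem _ hw (Ideal.mul_mem_left _ _ hWm))
        (Ideal.mul_mem_left _ _ e1)) (Ideal.mul_mem_left _ _ hE)
    · have : b01 + b11 * σ + b12 * τ - (b02 + b12 * σ + b22 * τ) * σ =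
        (b01 + b11 * σ + b12 * τ) - σ * (b02 + b12 * σ + b22 * τ) := by ring
      rw [this]
      exact e1
    · rw [sub_self]
      exact Ideal.zero_mem _
  obtain ⟨x, hx, hxZ, W', hW0, hWW, hW2⟩ := kl h2 hinf
    (-(b00 + 2 * b01 * σ + (b11 - b02) * σ ^ 2 - b12 * σ ^ 3 + h ^ 2 * b22 * σ ^ 4))
    (-(2 * b01 + 2 * (b11 - b02) * σ - 3 * b12 * σ ^ 2 + 4 * h ^ 2 * b22 * σ ^ 3))
    (-((b11 - b02) - 3 * b12 * σ + 6 * h ^ 2 * b22 * σ ^ 2))
    (-(-b12 + 4 * h ^ 2 * b22 * σ)) (-(h ^ 2 * b22)) W hq0 hu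
    {x : R | σ + x ∈ Z} (hZ.preimage (fun x _ y _ hxy => add_left_cancel hxy))
  refine ⟨σ + x, W', hxZ, hW0, hWW, ?_, ?_⟩
  · rw [add_sub_cancel_left]
    exact hx
  · rw [hW2]
    ring

theorem coreA (h : R) (hh : 2 * h = 1) (hinf : (maximalIdeal R : Set R).Infinite)
    (b00 b01 b02 b11 b12 b22 z0 z1 z2 w : R) (hu : IsUnit z0)
    (hA : 2 * z0 * z2 + z1 ^ 2 ∈ maximalIdeal R)
    (hw : w ^ 2 + (b00 * z0 ^ 2 + 2 * b01 * z0 * z1 + 2 * b02 * z0 * z2 + b11 * z1 ^ 2 +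
      2 * b12 * z1 * z2 + b22 * z2 ^ 2) ∈ maximalIdeal R)
    (hsm : ¬ (w ∈ maximalIdeal R ∧ ∃ μ : R,
      b00 * z0 + b01 * z1 + b02 * z2 - μ * z2 ∈ maximalIdeal R ∧
      b01 * z0 + b11 * z1 + b12 * z2 - μ * z1 ∈ maximalIdeal R ∧
      b02 * z0 + b12 * z1 + b22 * z2 - μ * z0 ∈ maximalIdeal R)) (Z : Set R) (hZ : Z.Finite) :
    ∃ s v1 v2 W : R, s ∉ Z ∧ W ≠ 0 ∧ v1 = z0 * s ∧ v2 = -h * s ^ 2 * z0 ∧
      2 * z0 * v2 + v1 ^ 2 = 0 ∧ v1 - z1 ∈ maximalIdeal R ∧ v2 - z2 ∈ maximalIdeal R ∧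
      W - w ∈ maximalIdeal R ∧
      W ^ 2 = -(b00 * z0 ^ 2 + 2 * b01 * z0 * v1 + 2 * b02 * z0 * v2 + b11 * v1 ^ 2 +
        2 * b12 * v1 * v2 + b22 * v2 ^ 2) := by
  obtain ⟨i0, hi⟩ := hu.exists_right_inv
  obtain ⟨σ, rfl⟩ : ∃ σ, z1 = z0 * σ := ⟨i0 * z1, by linear_combination (-z1) * hi⟩
  obtain ⟨τ, rfl⟩ : ∃ τ, z2 = z0 * τ := ⟨i0 * z2, by linear_combination (-z2) * hi⟩
  obtain ⟨W, rfl⟩ : ∃ W, w = z0 * W := ⟨i0 * w, by linear_combination (-w) * hi⟩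
  have hE : 2 * τ + σ ^ 2 ∈ maximalIdeal R := by
    have : z0 ^ 2 * (2 * τ + σ ^ 2) ∈ maximalIdeal R := by
      have e : z0 ^ 2 * (2 * τ + σ ^ 2) = 2 * z0 * (z0 * τ) + (z0 * σ) ^ 2 := by ring
      rw [e]
      exact hA
    exact (Ideal.unit_mul_mem_iff_mem _ (hu.pow 2)).1 this
  have hw' : W ^ 2 + (b00 + 2 * b01 * σ + 2 * b02 * τ + b11 * σ ^ 2 + 2 * b12 * σ * τ +
      b22 * τ ^ 2) ∈ maximalIdeal R := by
    refine (Ideal.unit_mul_mem_iff_mem _ (hu.pow 2)).1 ?_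
    have e : z0 ^ 2 * (W ^ 2 + (b00 + 2 * b01 * σ + 2 * b02 * τ + b11 * σ ^ 2 +
        2 * b12 * σ * τ + b22 * τ ^ 2)) = (z0 * W) ^ 2 + (b00 * z0 ^ 2 +
        2 * b01 * z0 * (z0 * σ) + 2 * b02 * z0 * (z0 * τ) + b11 * (z0 * σ) ^ 2 +
        2 * b12 * (z0 * σ) * (z0 * τ) + b22 * (z0 * τ) ^ 2) := by ring
    rw [e]
    exact hw
  have hsm' : ¬ (W ∈ maximalIdeal R ∧ ∃ μ : R,
      b00 + b01 * σ + b02 * τ - μ * τ ∈ maximalIdeal R ∧
      b01 + b11 * σ + b12 * τ - μ * σ ∈ maximalIdeal R ∧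
      b02 + b12 * σ + b22 * τ - μ ∈ maximalIdeal R) := by
    rintro ⟨h1, μ, h2, h3, h4⟩
    apply hsm
    refine ⟨Ideal.mul_mem_left _ _ h1, μ, ?_, ?_, ?_⟩
    · have e : b00 * z0 + b01 * (z0 * σ) + b02 * (z0 * τ) - μ * (z0 * τ) =
        z0 * (b00 + b01 * σ + b02 * τ - μ * τ) := by ring
      rw [e]
      exact Ideal.mul_mem_left _ _ h2
    · have e : b01 * z0 + b11 * (z0 * σ) + b12 * (z0 * τ) - μ * (z0 * σ) =
        z0 * (b01 + b11 * σ + b12 * τ - μ * σ) := by ring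
      rw [e]
      exact Ideal.mul_mem_left _ _ h3
    · have e : b02 * z0 + b12 * (z0 * σ) + b22 * (z0 * τ) - μ * z0 =
        z0 * (b02 + b12 * σ + b22 * τ - μ) := by ring
      rw [e]
      exact Ideal.mul_mem_left _ _ h4
  obtain ⟨s, W', hsZ, hW0, hWW, hsσ, hW2⟩ := coreN h hh hinf b00 b01 b02 b11 b12 b22 σ τ W hE hw'
    hsm' Z hZ
  refine ⟨s, z0 * s, -h * s ^ 2 * z0, z0 * W', hsZ, mul_ne_zero hu.ne_zero hW0, rfl, rfl, ?_, ?_,
    ?_, ?_, ?_⟩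
  · linear_combination (-(z0 ^ 2 * s ^ 2)) * hh
  · have e : z0 * s - z0 * σ = z0 * (s - σ) := by ring
    rw [e]
    exact Ideal.mul_mem_left _ _ hsσ
  · have e : -h * s ^ 2 * z0 - z0 * τ = (-(z0 * h) * (s + σ)) * (s - σ) -
        (z0 * h) * (2 * τ + σ ^ 2) := by
      linear_combination (z0 * τ) * hh
    rw [e]
    exact Ideal.sub_mem _ (Ideal.mul_mem_left _ _ hsσ) (Ideal.mul_mem_left _ _ hE)
  · have e : z0 * W' - z0 * W = z0 * (W' - W) := by ring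
    rw [e]
    exact Ideal.mul_mem_left _ _ hWW
  · linear_combination z0 ^ 2 * hW2 + (-(b02 * z0 ^ 2 * s ^ 2) - b12 * z0 ^ 2 * s ^ 3) * hh

end Hens

section Val

variable {L : Type} [Field L] {O : ValuationSubring L} {π : L}

theorem mem_max (hL : Loc L O π) (x : O) : x ∈ maximalIdeal O ↔ (x : L) / π ∈ O := by
  rw [mem_maximalIdeal, mem_nonunits_iff]
  by_cases hx : (x : L) = 0
  · have hx' : x = 0 := by
      apply Subtype.ext
      simpa using hx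
    rw [hx, zero_div]
    refine ⟨fun _ => O.zero_mem, fun _ hu => ?_⟩
    rw [hx'] at hu
    exact not_isUnit_zero hu
  · rw [← hL.unif (x : L) x.2 hx]
    apply not_congr
    constructor
    · intro hu
      obtain ⟨u, rfl⟩ := hu
      have h1 : ((u : O) : L) * ((↑u⁻¹ : O) : L) = 1 := congrArg Subtype.val u.mul_inv
      have h2 : ((u : O) : L)⁻¹ = ((↑u⁻¹ : O) : L) := inv_eq_of_mul_eq_one_right h1
      rw [h2]
      exact Subtype.property _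
    · intro hi
      refine IsUnit.of_mul_eq_one (⟨(x : L)⁻¹, hi⟩ : O) ?_
      apply Subtype.ext
      exact mul_inv_cancel₀ hx

theorem pi_not_unit (hL : Loc L O π) : ¬ IsUnit (⟨π, hL.pi_mem⟩ : O) := by
  have := (mem_max hL ⟨π, hL.pi_mem⟩).2 (by
    show π / π ∈ O
    rw [div_self hL.pi_ne]
    exact O.one_mem)
  rwa [mem_maximalIdeal, mem_nonunits_iff] at this

theorem max_inf (hL : Loc L O π) : (maximalIdeal O : Set O).Infinite := by
  have hinj := pow_injective_of_not_isUnit (pi_not_unit hL) (by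
    intro h
    exact hL.pi_ne (congrArg Subtype.val h))
  refine Set.infinite_of_injective_forall_mem (f := fun n : ℕ => (⟨π, hL.pi_mem⟩ : O) ^ (n + 1))
    (fun a b hab => ?_) (fun n => ?_)
  · have := hinj hab
    omega
  · rw [pow_succ]
    apply Ideal.mul_mem_left
    rw [mem_maximalIdeal, mem_nonunits_iff]
    exact pi_not_unit hL

end Val

end HSM

theorem hsm_thm : HSMStmt := by
  intro L _ O π hL B z w hBs hB hS Z hZ
  obtain ⟨hz, hw, hprim, hA, hwB, hns⟩ := hS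
  have := hL.hens
  have s10 : B 1 0 = B 0 1 := by
    conv_lhs => rw [← hBs]
    rfl
  have s20 : B 2 0 = B 0 2 := by
    conv_lhs => rw [← hBs]
    rfl
  have s21 : B 2 1 = B 1 2 := by
    conv_lhs => rw [← hBs]
    rfl
  have bilA : ∀ u : Fin 3 → L, bil (AA L) u u = 2 * u 0 * u 2 + u 1 ^ 2 := by
    intro u
    simp only [bil, AA, Matrix.mulVec, dotProduct, Fin.sum_univ_three]
    simp
    ring
  have bilB : ∀ u : Fin 3 → L, bil B u u = B 0 0 * u 0 ^ 2 + 2 * B 0 1 * u 0 * u 1 +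
      2 * B 0 2 * u 0 * u 2 + B 1 1 * u 1 ^ 2 + 2 * B 1 2 * u 1 * u 2 + B 2 2 * u 2 ^ 2 := by
    intro u
    simp only [bil, Matrix.mulVec, dotProduct, Fin.sum_univ_three]
    rw [s10, s20, s21]
    ring
  have mB0 : ∀ u : Fin 3 → L, (B *ᵥ u) 0 = B 0 0 * u 0 + B 0 1 * u 1 + B 0 2 * u 2 := by
    intro u
    simp only [Matrix.mulVec, dotProduct, Fin.sum_univ_three]
  have mB1 : ∀ u : Fin 3 → L, (B *ᵥ u) 1 = B 0 1 * u 0 + B 1 1 * u 1 + B 1 2 * u 2 := by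
    intro u
    simp only [Matrix.mulVec, dotProduct, Fin.sum_univ_three]
    rw [s10]
  have mB2 : ∀ u : Fin 3 → L, (B *ᵥ u) 2 = B 0 2 * u 0 + B 1 2 * u 1 + B 2 2 * u 2 := by
    intro u
    simp only [Matrix.mulVec, dotProduct, Fin.sum_univ_three]
    rw [s20, s21]
  have mA0 : ∀ u : Fin 3 → L, (AA L *ᵥ u) 0 = u 2 := by
    intro u
    simp [AA, Matrix.mulVec, dotProduct, Fin.sum_univ_three]
  have mA1 : ∀ u : Fin 3 → L, (AA L *ᵥ u) 1 = u 1 := by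
    intro u
    simp [AA, Matrix.mulVec, dotProduct, Fin.sum_univ_three]
  have mA2 : ∀ u : Fin 3 → L, (AA L *ᵥ u) 2 = u 0 := by
    intro u
    simp [AA, Matrix.mulVec, dotProduct, Fin.sum_univ_three]
  -- lifts
  obtain ⟨z0, hz0⟩ : ∃ x : O, (x : L) = z 0 := ⟨⟨z 0, hz 0⟩, rfl⟩
  obtain ⟨z1, hz1⟩ : ∃ x : O, (x : L) = z 1 := ⟨⟨z 1, hz 1⟩, rfl⟩
  obtain ⟨z2, hz2⟩ : ∃ x : O, (x : L) = z 2 := ⟨⟨z 2, hz 2⟩, rfl⟩
  obtain ⟨w₁, hw₁⟩ : ∃ x : O, (x : L) = w := ⟨⟨w, hw⟩, rfl⟩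
  obtain ⟨b00, hb00⟩ : ∃ x : O, (x : L) = B 0 0 := ⟨⟨B 0 0, hB 0 0⟩, rfl⟩
  obtain ⟨b01, hb01⟩ : ∃ x : O, (x : L) = B 0 1 := ⟨⟨B 0 1, hB 0 1⟩, rfl⟩
  obtain ⟨b02, hb02⟩ : ∃ x : O, (x : L) = B 0 2 := ⟨⟨B 0 2, hB 0 2⟩, rfl⟩
  obtain ⟨b11, hb11⟩ : ∃ x : O, (x : L) = B 1 1 := ⟨⟨B 1 1, hB 1 1⟩, rfl⟩
  obtain ⟨b12, hb12⟩ : ∃ x : O, (x : L) = B 1 2 := ⟨⟨B 1 2, hB 1 2⟩, rfl⟩
  obtain ⟨b22, hb22⟩ : ∃ x : O, (x : L) = B 2 2 := ⟨⟨B 2 2, hB 2 2⟩, rfl⟩
  obtain ⟨h, hh⟩ : ∃ x : O, (x : L) = (2 : L)⁻¹ := ⟨⟨(2 : L)⁻¹, hL.two.2⟩, rfl⟩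
  have hh2 : 2 * h = 1 := by
    apply Subtype.ext
    push_cast
    rw [hh]
    exact mul_inv_cancel₀ hL.two.1
  have hinf := HSM.max_inf hL
  have hAm : 2 * z0 * z2 + z1 ^ 2 ∈ IsLocalRing.maximalIdeal O := by
    rw [HSM.mem_max hL]
    rw [bilA] at hA
    push_cast
    rw [hz0, hz1, hz2]
    exact hA
  have hwm : w₁ ^ 2 + (b00 * z0 ^ 2 + 2 * b01 * z0 * z1 + 2 * b02 * z0 * z2 + b11 * z1 ^ 2 +
      2 * b12 * z1 * z2 + b22 * z2 ^ 2) ∈ IsLocalRing.maximalIdeal O := by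
    rw [HSM.mem_max hL]
    rw [bilB] at hwB
    push_cast
    rw [hz0, hz1, hz2, hw₁, hb00, hb01, hb02, hb11, hb12, hb22]
    exact hwB
  have hnsm : ¬ (w₁ ∈ IsLocalRing.maximalIdeal O ∧ ∃ μ : O,
      b00 * z0 + b01 * z1 + b02 * z2 - μ * z2 ∈ IsLocalRing.maximalIdeal O ∧
      b01 * z0 + b11 * z1 + b12 * z2 - μ * z1 ∈ IsLocalRing.maximalIdeal O ∧
      b02 * z0 + b12 * z1 + b22 * z2 - μ * z0 ∈ IsLocalRing.maximalIdeal O) := by
    rintro ⟨h1, μ, h2, h3, h4⟩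
    rw [HSM.mem_max hL] at h1 h2 h3 h4
    push_cast at h1 h2 h3 h4
    rw [hz0, hz1, hz2, hb00, hb01, hb02] at h2
    rw [hz0, hz1, hz2, hb01, hb11, hb12] at h3
    rw [hz0, hz1, hz2, hb02, hb12, hb22] at h4
    rw [hw₁] at h1
    apply hns
    refine ⟨h1, (μ : L), μ.2, ?_⟩
    intro i
    fin_cases i
    · show ((B *ᵥ z) 0 - μ * (AA L *ᵥ z) 0) / π ∈ O
      rw [mB0, mA0]
      exact h2
    · show ((B *ᵥ z) 1 - μ * (AA L *ᵥ z) 1) / π ∈ O
      rw [mB1, mA1]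
      exact h3
    · show ((B *ᵥ z) 2 - μ * (AA L *ᵥ z) 2) / π ∈ O
      rw [mB2, mA2]
      exact h4
  have key : ∃ v0 v1 v2 W : O, (v0 : L) ≠ 0 ∧ 2 * v0 * v2 + v1 ^ 2 = 0 ∧ W ≠ 0 ∧
      W ^ 2 = -(b00 * v0 ^ 2 + 2 * b01 * v0 * v1 + 2 * b02 * v0 * v2 + b11 * v1 ^ 2 +
        2 * b12 * v1 * v2 + b22 * v2 ^ 2) ∧ v0 - z0 ∈ IsLocalRing.maximalIdeal O ∧
      v1 - z1 ∈ IsLocalRing.maximalIdeal O ∧ v2 - z2 ∈ IsLocalRing.maximalIdeal O ∧
      W - w₁ ∈ IsLocalRing.maximalIdeal O ∧ (v1 : L) / (v0 : L) ∉ Z := by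
    by_cases hu : IsUnit z0
    · obtain ⟨s, v1, v2, W, h1, h3, h4, h5, h6, h7, h8, h9, h10⟩ := HSM.coreA h hh2 hinf b00 b01
        b02 b11 b12 b22 z0 z1 z2 w₁ hu hAm hwm hnsm {x : O | (x : L) ∈ Z}
        (hZ.preimage Subtype.val_injective.injOn)
      have hz0' : (z0 : L) ≠ 0 := fun h0 => hu.ne_zero (Subtype.ext h0)
      refine ⟨z0, v1, v2, W, hz0', h6, h3, h10, ?_, h7, h8, h9, ?_⟩
      · rw [sub_self]
        exact Ideal.zero_mem _
      · rw [h4]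
        push_cast
        rw [mul_div_cancel_left₀ _ hz0']
        exact h1
    · have hz0m : z0 ∈ IsLocalRing.maximalIdeal O := by
        rwa [IsLocalRing.mem_maximalIdeal, mem_nonunits_iff]
      have hz1m : z1 ∈ IsLocalRing.maximalIdeal O := by
        refine (IsLocalRing.maximalIdeal.isMaximal O).isPrime.mem_of_pow_mem 2 ?_
        have e : z1 ^ 2 = (2 * z0 * z2 + z1 ^ 2) - 2 * z2 * z0 := by ring
        rw [e]
        exact Ideal.sub_mem _ hAm (Ideal.mul_mem_left _ _ hz0m)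
      have hu2 : IsUnit z2 := by
        by_contra hn
        have hz2m : z2 ∈ IsLocalRing.maximalIdeal O := by
          rwa [IsLocalRing.mem_maximalIdeal, mem_nonunits_iff]
        obtain ⟨i, hi⟩ := hprim
        apply hi
        rw [HSM.mem_max hL] at hz0m hz1m hz2m
        rw [hz0] at hz0m
        rw [hz1] at hz1m
        rw [hz2] at hz2m
        fin_cases i
        · exact hz0m
        · exact hz1m
        · exact hz2m
      obtain ⟨s, v1, v0, W, h1, h3, h4, h5, h6, h7, h8, h9, h10⟩ := HSM.coreA h hh2 hinf b22 b12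
        b02 b11 b01 b00 z2 z1 z0 w₁ hu2
        (by
          have e : 2 * z2 * z0 + z1 ^ 2 = 2 * z0 * z2 + z1 ^ 2 := by ring
          rw [e]
          exact hAm)
        (by
          have e : w₁ ^ 2 + (b22 * z2 ^ 2 + 2 * b12 * z2 * z1 + 2 * b02 * z2 * z0 +
            b11 * z1 ^ 2 + 2 * b01 * z1 * z0 + b00 * z0 ^ 2) = w₁ ^ 2 + (b00 * z0 ^ 2 +
            2 * b01 * z0 * z1 + 2 * b02 * z0 * z2 + b11 * z1 ^ 2 + 2 * b12 * z1 * z2 +
            b22 * z2 ^ 2) := by ring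
          rw [e]
          exact hwm)
        (by
          rintro ⟨g1, μ, g2, g3, g4⟩
          apply hnsm
          refine ⟨g1, μ, ?_, ?_, ?_⟩
          · have e : b00 * z0 + b01 * z1 + b02 * z2 - μ * z2 =
              b02 * z2 + b01 * z1 + b00 * z0 - μ * z2 := by ring
            rw [e]
            exact g4
          · have e : b01 * z0 + b11 * z1 + b12 * z2 - μ * z1 =
              b12 * z2 + b11 * z1 + b01 * z0 - μ * z1 := by ring
            rw [e]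
            exact g3
          · have e : b02 * z0 + b12 * z1 + b22 * z2 - μ * z0 =
              b22 * z2 + b12 * z1 + b02 * z0 - μ * z0 := by ring
            rw [e]
            exact g2)
        ({0} ∪ {x : O | -2 / (x : L) ∈ Z})
        ((Set.finite_singleton 0).union (hZ.preimage (by
          intro x _ y _ hxy
          have h2' : (-2 : L) ≠ 0 := neg_ne_zero.2 hL.two.1
          have hxy' : (-2 : L) / (x : L) = -2 / (y : L) := hxy
          apply Subtype.ext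
          rw [div_eq_mul_inv, div_eq_mul_inv] at hxy'
          exact inv_injective (mul_left_cancel₀ h2' hxy'))))
      have hs0 : (s : L) ≠ 0 := fun h0 => h1 (Or.inl (Subtype.ext h0))
      have hz2' : (z2 : L) ≠ 0 := fun h0 => hu2.ne_zero (Subtype.ext h0)
      have hv0 : (v0 : L) = -(2 : L)⁻¹ * (s : L) ^ 2 * (z2 : L) := by
        rw [h5]
        push_cast
        rw [hh]
      refine ⟨v0, v1, z2, W, ?_, ?_, h3, ?_, h8, h7, ?_, h9, ?_⟩
      · rw [hv0]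
        exact mul_ne_zero (mul_ne_zero (neg_ne_zero.2 (inv_ne_zero hL.two.1)) (pow_ne_zero 2 hs0))
          hz2'
      · linear_combination h6
      · linear_combination h10
      · rw [sub_self]
        exact Ideal.zero_mem _
      · intro hmem
        apply h1
        right
        show -2 / (s : L) ∈ Z
        have e : (v1 : L) / (v0 : L) = -2 / (s : L) := by
          rw [hv0, h4]
          push_cast
          have := hL.two.1
          field_simp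
        rw [← e]
        exact hmem
  obtain ⟨v0, v1, v2, W, hv0, hv, hW0, hW2, m0, m1, m2, mW, hsZ⟩ := key
  have hvL : 2 * (v0 : L) * (v2 : L) + (v1 : L) ^ 2 = 0 := by
    have := congrArg Subtype.val hv
    push_cast at this
    exact this
  have hWL : (W : L) ^ 2 = -(B 0 0 * (v0 : L) ^ 2 + 2 * B 0 1 * v0 * v1 + 2 * B 0 2 * v0 * v2 +
      B 1 1 * (v1 : L) ^ 2 + 2 * B 1 2 * v1 * v2 + B 2 2 * (v2 : L) ^ 2) := by
    have := congrArg Subtype.val hW2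
    push_cast at this
    rw [hb00, hb01, hb02, hb11, hb12, hb22] at this
    exact this
  have e0 : ((v0 : L) • zz 1 ((v1 : L) / v0)) 0 = v0 := by simp [zz]
  have e1 : ((v0 : L) • zz 1 ((v1 : L) / v0)) 1 = v1 := by
    simp only [zz, Pi.smul_apply, smul_eq_mul]
    simp
    field_simp
  have e2 : ((v0 : L) • zz 1 ((v1 : L) / v0)) 2 = v2 := by
    simp only [zz, Pi.smul_apply, smul_eq_mul]
    simp
    have h2 := hL.two.1
    field_simp
    linear_combination (-1 : L) * hvL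
  refine ⟨(v1 : L) / (v0 : L), (v0 : L), (W : L), hsZ, hv0, fun h0 => hW0 (Subtype.ext h0),
    ⟨?_, ?_, ?_⟩, ?_, ?_, ?_⟩
  · intro h0
    apply hv0
    rw [← e0, h0]
    rfl
  · rw [bilA, e0, e1, e2]
    exact hvL
  · rw [bilB, e0, e1, e2]
    exact hWL
  · intro i
    fin_cases i
    · show ((v0 : L) • zz 1 ((v1 : L) / v0)) 0 ∈ O
      rw [e0]
      exact v0.2
    · show ((v0 : L) • zz 1 ((v1 : L) / v0)) 1 ∈ O
      rw [e1]
      exact v1.2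
    · show ((v0 : L) • zz 1 ((v1 : L) / v0)) 2 ∈ O
      rw [e2]
      exact v2.2
  · rw [HSM.mem_max hL] at m0 m1 m2
    push_cast at m0 m1 m2
    rw [hz0] at m0
    rw [hz1] at m1
    rw [hz2] at m2
    intro i
    fin_cases i
    · show (((v0 : L) • zz 1 ((v1 : L) / v0)) 0 - z 0) / π ∈ O
      rw [e0]
      exact m0
    · show (((v0 : L) • zz 1 ((v1 : L) / v0)) 1 - z 1) / π ∈ O
      rw [e1]
      exact m1
    · show (((v0 : L) • zz 1 ((v1 : L) / v0)) 2 - z 2) / π ∈ O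
      rw [e2]
      exact m2
  · rw [HSM.mem_max hL] at mW
    push_cast at mW
    rw [hw₁] at mW
    exact mW

end Pool.AVS
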